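import Mathlib
import Pool.Agent.Helper50_DP.Stmts

/-!
# VAL: the local inequality for a family of differential polynomials
-/

universe u

open MvPolynomial PGH PGL WithZero

namespace Pool.Agent.DP

section gen

theorem evP_map {N : ℕ} {R S : Type*} [CommRing R] [CommRing S] (φ : R →+* S)
    (a : Fin N → Fin 3 → R) (X : Fin 3 → Fin 3 → R) (P : Pol N) :
    φ (evP a X P) = evP (fun i c => φ (a i c)) (fun r c => φ (X r c)) P := by
  have h : (φ.toIntAlgHom).comp (evP a X) =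
      evP (fun i c => φ (a i c)) (fun r c => φ (X r c)) := by
    apply MvPolynomial.algHom_ext
    intro s
    simp only [AlgHom.comp_apply, evP, aeval_X]
    rcases s with s | s
    · simp [vals]
    · simp [vals]
  exact DFunLike.congr_fun h P

theorem lf_map {R S : Type*} [CommRing R] [CommRing S] (φ : R →+* S) (b x : Fin 3 → R) :
    φ (lf b x) = lf (fun c => φ (b c)) (fun c => φ (x c)) := by
  simp [lf, map_sum]

theorem det3_map {R S : Type*} [CommRing R] [CommRing S] (φ : R →+* S) (x y z : Fin 3 → R) :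
    φ (det3 x y z) = det3 (fun c => φ (x c)) (fun c => φ (y c)) (fun c => φ (z c)) := by
  simp [det3, Matrix.det_fin_three]

/-- the jets of `y` for `D`, in terms of the jets of `y₁` for `δ`, with `y = lam y₁`, `D = f δ` -/
theorem chg_jets {E : Type*} [Field E] (D δ : Derivation ℤ E E) (lam f : E) (y y₁ : Fin 3 → E)
    (hy : ∀ c, y c = lam * y₁ c) (hD : ∀ x, D x = f * δ x) :
    (![y, fun c => D (y c), fun c => D (D (y c))] : Fin 3 → Fin 3 → E) =
      chg lam f (D lam) (D (lam * f) + D lam * f) (D (D lam))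
        ![y₁, fun c => δ (y₁ c), fun c => δ (δ (y₁ c))] := by
  have h1 : ∀ c, D (y c) = lam * f * δ (y₁ c) + D lam * y₁ c := by
    intro c
    rw [hy, D.leibniz, smul_eq_mul, smul_eq_mul, hD (y₁ c)]
    ring
  have h2 : ∀ c, D (D (y c)) = lam * f ^ 2 * δ (δ (y₁ c)) +
      (D (lam * f) + D lam * f) * δ (y₁ c) + D (D lam) * y₁ c := by
    intro c
    rw [h1, map_add, D.leibniz (lam * f), D.leibniz (D lam)]
    simp only [smul_eq_mul]
    rw [hD (δ (y₁ c)), hD (y₁ c)]
    ring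
  unfold chg
  ext r c
  fin_cases r
  · simp [hy]
  · simp [h1]
  · simp [h2]

end gen

section loc

variable {k E : Type u} [Field k] [Field E] [Algebra k E]

/-- the local inequality for integral jets -/
theorem val_int {N ν e m : ℕ} (L : Fin N → Fin 3 → k) (P : Pol N) (hP : Cls.{u} ν e m P)
    (hL : GenPos L) (hN : 3 ≤ N) (v : Place k E) (δ : Derivation ℤ E E)
    (hδc : ∀ c : k, δ (algebraMap k E c) = 0) (hδ : ∀ x, v.Ge 0 x → v.Ge 0 (δ x))
    (y : Fin 3 → E) (hy : ∀ c, v.Ge 0 (y c)) :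
    v.Ge 0 (evP (fun i c => algebraMap k E (L i c))
      ![y, fun c => δ (y c), fun c => δ (δ (y c))] P) ∧
    ∀ i j : Fin N, i < j → lin (L i) y ≠ 0 → lin (L j) y ≠ 0 →
      v.ord (lin (L i) y) = 1 → v.ord (lin (L j) y) = 1 →
      v.Ge ν (evP (fun i c => algebraMap k E (L i c))
        ![y, fun c => δ (y c), fun c => δ (δ (y c))] P) := by
  classical
  have hmem : ∀ {x : E}, v.Ge 0 x → x ∈ v.ring := fun h => v.mem_ring.2 h
  set A : Fin N → Fin 3 → v.ring := fun i c => ⟨algebraMap k E (L i c), hmem (v.ge_const _)⟩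
    with hA
  set X₀ : Fin 3 → Fin 3 → v.ring := ![fun c => ⟨y c, hmem (hy c)⟩,
    fun c => ⟨δ (y c), hmem (hδ _ (hy c))⟩, fun c => ⟨δ (δ (y c)), hmem (hδ _ (hδ _ (hy c)))⟩]
    with hX
  set φ : v.ring →+* E := v.ring.subtype with hφ
  have hφi : Function.Injective φ := fun a b h => Subtype.ext h
  have hX0 : (fun r c => φ (X₀ r c)) =
      (![y, fun c => δ (y c), fun c => δ (δ (y c))] : Fin 3 → Fin 3 → E) := by
    ext r c
    fin_cases r <;> rfl
  have hev : φ (evP A X₀ P) = evP (fun i c => algebraMap k E (L i c))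
      ![y, fun c => δ (y c), fun c => δ (δ (y c))] P := by
    rw [evP_map φ A X₀ P, hX0]
    rfl
  have hge : ∀ x : v.ring, v.Ge 0 (φ x) := fun x => v.mem_ring.1 x.2
  refine ⟨hev ▸ hge _, ?_⟩
  intro i j hij hi0 hj0 hi hj
  obtain ⟨l, hl⟩ : ∃ l : Fin N, l ≠ i ∧ l ≠ j := by
    by_contra hcon
    push Not at hcon
    have h1 : (Finset.univ : Finset (Fin N)) ⊆ {i, j} := by
      intro l _
      rcases eq_or_ne l i with h | h
      · simp [h]
      · simp [hcon l h]
    have h2 := Finset.card_le_card h1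
    have h3 := Finset.card_le_two (a := i) (b := j)
    rw [Finset.card_univ, Fintype.card_fin] at h2
    omega
  obtain ⟨M, hM⟩ := hP.nod i j l hij hl.1 hl.2
  -- the forms
  have hlin : ∀ (i : Fin N) (x : Fin 3 → E), lf (fun c => algebraMap k E (L i c)) x =
      lin (L i) x := fun i x => rfl
  have hδlin : ∀ (i : Fin N) (x : Fin 3 → E), δ (lin (L i) x) = lin (L i) (fun c => δ (x c)) := by
    intro i x
    unfold lin
    rw [map_sum]
    refine Finset.sum_congr rfl fun c _ => ?_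
    rw [δ.leibniz, hδc, smul_zero, add_zero, smul_eq_mul]
  set a := lin (L i) y with ha
  set b := lin (L j) y with hb
  set η := b / a with hη
  have hη0 : v.Ge 0 η := by
    rw [v.ge_iff (div_ne_zero hj0 hi0), v.ord_div hj0 hi0]
    omega
  have hba : b = η * a := by rw [hη]; field_simp
  have hb1 : δ b = δ η * a + η * δ a := by
    rw [hba, δ.leibniz, smul_eq_mul, smul_eq_mul]; ring
  have hb2 : δ (δ b) = δ (δ η) * a + 2 * δ η * δ a + η * δ (δ a) := by
    rw [hb1, map_add, δ.leibniz, δ.leibniz]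
    simp only [smul_eq_mul]
    ring
  have h0 : ∀ i : Fin N, φ (lf (A i) (X₀ 0)) = lin (L i) y := by
    intro i; rw [lf_map]; rfl
  have h1 : ∀ i : Fin N, φ (lf (A i) (X₀ 1)) = δ (lin (L i) y) := by
    intro i; rw [lf_map, hδlin]; rfl
  have h2 : ∀ i : Fin N, φ (lf (A i) (X₀ 2)) = δ (δ (lin (L i) y)) := by
    intro i; rw [lf_map, hδlin, hδlin]; rfl
  have hdvd := hM v.ring A X₀ ⟨η, hmem hη0⟩ ⟨δ η, hmem (hδ _ hη0)⟩
    ⟨δ (δ η), hmem (hδ _ (hδ _ hη0))⟩
    (by
      apply hφi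
      rw [map_mul, h0, h0]
      exact hba)
    (by
      apply hφi
      rw [map_add, map_mul, map_mul, h0, h1, h1]
      exact hb1)
    (by
      apply hφi
      rw [map_add, map_add, map_mul, map_mul, map_mul, map_mul, map_ofNat, h0, h1, h2, h2]
      exact hb2)
  obtain ⟨q, hq⟩ := hdvd
  have hq' := congrArg φ hq
  rw [map_mul, map_mul, map_pow, map_pow, h0, hev, det3_map] at hq'
  have hdet : det3 (fun c => φ (A i c)) (fun c => φ (A j c)) (fun c => φ (A l c)) =
      algebraMap k E (det3 (L i) (L j) (L l)) := by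
    rw [det3_map (algebraMap k E)]
    rfl
  rw [hdet] at hq'
  have hd0 : det3 (L i) (L j) (L l) ≠ 0 := hL i j l hij.ne hl.1 hl.2
  set dd := det3 (L i) (L j) (L l) with hdd
  have hdE : (algebraMap k E dd) ^ M ≠ 0 := pow_ne_zero _ (by
    rwa [Ne, map_eq_zero])
  have hfin : evP (fun i c => algebraMap k E (L i c))
      ![y, fun c => δ (y c), fun c => δ (δ (y c))] P =
      algebraMap k E ((dd ^ M)⁻¹) * (a ^ ν * φ q) := by
    rw [← hq', map_inv₀, map_pow, ← mul_assoc, inv_mul_cancel₀ hdE, one_mul]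
  rw [hfin]
  have hage : v.Ge 1 a := (v.ge_iff hi0).2 hi.ge
  refine (v.ge_const _).mul' (((hage.pow ν).mul (hge q))) ?_
  simp

end loc

theorem val : ValStmt.{u} := by
  intro k E _ _ _ _ _ _ N ν e m L P y D v α cp hP hL hN hDc hD hy
  obtain ⟨p, hp0, hp⟩ := v.exists_unif
  set δ : Derivation ℤ E E := p ^ (cp : ℤ) • D with hδ
  have hδa : ∀ x, δ x = p ^ (cp : ℤ) * D x := fun x => rfl
  have hpz : ∀ n : ℤ, p ^ n ≠ 0 := fun n => zpow_ne_zero _ hp0
  set y₁ : Fin 3 → E := fun c => y c * p ^ (-α) with hy₁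
  have hyy : ∀ c, y c = p ^ α * y₁ c := by
    intro c
    rw [hy₁]
    simp only
    rw [zpow_neg]
    field_simp [hpz α]
  have hDf : ∀ x, D x = p ^ (-(cp : ℤ)) * δ x := by
    intro x
    rw [hδa, ← mul_assoc, ← zpow_add₀ hp0]
    simp
  have hy₁ge : ∀ c, v.Ge 0 (y₁ c) := fun c => (v.ge_iff_of_unif hp0 hp).1 (hy c)
  have hδge : ∀ x, v.Ge 0 x → v.Ge 0 (δ x) := by
    intro x hx
    rw [hδa]
    exact (v.ge_zpow hp0 hp cp).mul' (hD x hx) (by omega)
  have hδc : ∀ c : k, δ (algebraMap k E c) = 0 := by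
    intro c; rw [hδa, hDc, mul_zero]
  have hmain := val_int L P hP hL hN v δ hδc hδge y₁ hy₁ge
  have hev : evD L D y P = (p ^ α) ^ e * (p ^ (-(cp : ℤ))) ^ m *
      evP (fun i c => algebraMap k E (L i c))
        ![y₁, fun c => δ (y₁ c), fun c => δ (δ (y₁ c))] P := by
    unfold evD
    rw [chg_jets D δ (p ^ α) (p ^ (-(cp : ℤ))) y y₁ hyy hDf]
    exact hP.inv E _ _ _ _ _ _ _
  have hpre : v.Ge (e * α - m * cp) ((p ^ α) ^ e * (p ^ (-(cp : ℤ))) ^ m) := by
    refine ((v.ge_zpow hp0 hp α).pow e).mul' ((v.ge_zpow hp0 hp (-(cp : ℤ))).pow m) ?_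
    linarith
  have hlin : ∀ i, lin (L i) y = p ^ α * lin (L i) y₁ := by
    intro i
    unfold lin
    rw [Finset.mul_sum]
    refine Finset.sum_congr rfl fun c _ => ?_
    rw [hyy c]; ring
  have hlin0 : ∀ i, lin (L i) y ≠ 0 → lin (L i) y₁ ≠ 0 := by
    intro i hi h
    rw [hlin, h, mul_zero] at hi
    exact hi rfl
  have hord : ∀ i, lin (L i) y ≠ 0 → v.ord (lin (L i) y) = α + 1 → v.ord (lin (L i) y₁) = 1 := by
    intro i hi h
    rw [hlin, v.ord_mul (hpz α) (hlin0 i hi), v.ord_zpow, hp] at h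
    linarith
  refine ⟨?_, ?_⟩
  · rw [hev]
    exact hpre.mul' hmain.1 (by linarith)
  · intro i j hij hi hj hoi hoj
    rw [hev]
    refine hpre.mul ?_
    rcases lt_or_gt_of_ne hij with h | h
    · exact hmain.2 i j h (hlin0 i hi) (hlin0 j hj) (hord i hi hoi) (hord j hj hoj)
    · exact hmain.2 j i h (hlin0 j hj) (hlin0 i hi) (hord j hj hoj) (hord i hi hoi)

end Pool.Agent.DP
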